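import Mathlib

set_option autoImplicit false

/-! Iltyakov's question for alternative algebras over finite fields (helper634). -/

namespace Pool.Agent.Results.MP_13d782_al.AlternativeFiniteFields

open FreeNonUnitalNonAssocAlgebra

universe u v

/-- alternative algebras: `x² y = x (x y)` and `(y x) x = y x²` -/
def IsAlternative (A : Type u) [NonUnitalNonAssocRing A] : Prop :=
  ∀ x y : A, (x * x) * y = x * (x * y) ∧ (y * x) * x = y * (x * x)

/-- the element `f` of the free nonassociative algebra on `x_0, x_1, …` is an identity of `A` -/
def Holds (F : Type u) [Field F] (A : Type v) [NonUnitalNonAssocRing A] [Module F A]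
    [IsScalarTower F A A] [SMulCommClass F A A] (f : FreeNonUnitalNonAssocAlgebra F ℕ) : Prop :=
  ∀ a : ℕ → A, FreeNonUnitalNonAssocAlgebra.lift F a f = 0

/-- `A` is finitely generated as a (nonunital, nonassociative) algebra -/
def FinGen (F : Type u) [Field F] (A : Type v) [NonUnitalNonAssocRing A] [Module F A]
    [IsScalarTower F A A] [SMulCommClass F A A] : Prop :=
  ∃ s : Finset A, NonUnitalAlgebra.adjoin F (s : Set A) = ⊤

/-- `A` is a PI algebra within the variety of alternative algebras: some identity of `A` is
not an identity of all alternative algebras, that is, it is a nonzero element of the free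
alternative algebra. -/
def IsPI (F : Type) [Field F] (A : Type) [NonUnitalNonAssocRing A] [Module F A]
    [IsScalarTower F A A] [SMulCommClass F A A] : Prop :=
  ∃ f : FreeNonUnitalNonAssocAlgebra F ℕ, Holds F A f ∧
    ∃ (C : Type) (_ : NonUnitalNonAssocRing C) (_ : Module F C) (_ : IsScalarTower F C C)
      (_ : SMulCommClass F C C), IsAlternative C ∧ ¬ Holds F C f

/-- the right-normed words `x_0 (x_0 (… x_0))` -/
private noncomputable def wd (F : Type) [Field F] : ℕ → FreeNonUnitalNonAssocAlgebra F ℕ
  | 0 => of F 0
  | n + 1 => of F 0 * wd F n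

private def pw {B : Type v} [NonUnitalNonAssocRing B] : ℕ → B → B
  | 0 => fun b => b
  | n + 1 => fun b => b * pw n b

private lemma lift_wd (F : Type) [Field F] {B : Type v} [NonUnitalNonAssocRing B] [Module F B]
    [IsScalarTower F B B] [SMulCommClass F B B] (a : ℕ → B) (n : ℕ) :
    lift F a (wd F n) = pw n (a 0) := by
  induction n with
  | zero => simp [wd, pw, lift_of_apply]
  | succ n ih => simp only [wd, pw, map_mul, ih, lift_of_apply]

private lemma pw_poly (F : Type) [Field F] (n : ℕ) :
    pw n (Polynomial.X : Polynomial F) = Polynomial.X ^ (n + 1) := by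
  induction n with
  | zero => simp [pw]
  | succ n ih => simp only [pw, ih]; ring

private lemma finGen_poly (F : Type) [Field F] : FinGen F (Polynomial F) := by
  classical
  refine ⟨{1, Polynomial.X}, ?_⟩
  rw [eq_top_iff]
  intro p _
  have h1 : (1 : Polynomial F) ∈ NonUnitalAlgebra.adjoin F
      (({1, Polynomial.X} : Finset (Polynomial F)) : Set (Polynomial F)) :=
    NonUnitalAlgebra.subset_adjoin F (by simp)
  have hX : (Polynomial.X : Polynomial F) ∈ NonUnitalAlgebra.adjoin F
      (({1, Polynomial.X} : Finset (Polynomial F)) : Set (Polynomial F)) :=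
    NonUnitalAlgebra.subset_adjoin F (by simp)
  have hpow : ∀ n : ℕ, (Polynomial.X ^ n : Polynomial F) ∈ NonUnitalAlgebra.adjoin F
      (({1, Polynomial.X} : Finset (Polynomial F)) : Set (Polynomial F)) := by
    intro n
    induction n with
    | zero => simpa using h1
    | succ n ih => rw [pow_succ]; exact mul_mem ih hX
  rw [p.as_sum_range_C_mul_X_pow]
  refine sum_mem (fun i _ => ?_)
  rw [← Polynomial.smul_eq_C_mul]
  exact SMulMemClass.smul_mem _ (hpow i)

/-- Over every finite field `F` the answer to Iltyakov's question for alternative algebras is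
negative: there is a finitely generated alternative PI algebra `A` (even commutative, associative
and unital) such that every finite dimensional algebra `B`, alternative or not, has an identity
which fails in `A`. -/
theorem result (F : Type) [Field F] [Finite F] :
    ∃ (A : Type) (_ : NonUnitalNonAssocRing A) (_ : Module F A) (_ : IsScalarTower F A A)
      (_ : SMulCommClass F A A), IsAlternative A ∧ FinGen F A ∧ IsPI F A ∧
      ∀ (B : Type v) [NonUnitalNonAssocRing B] [Module F B] [IsScalarTower F B B]
        [SMulCommClass F B B], Module.Finite F B →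
        ∃ f : FreeNonUnitalNonAssocAlgebra F ℕ, Holds F B f ∧ ¬ Holds F A f := by
  refine ⟨Polynomial F, inferInstance, inferInstance, inferInstance, inferInstance, ?_,
    finGen_poly F, ?_, ?_⟩
  · intro x y
    exact ⟨mul_assoc x x y, mul_assoc y x x⟩
  · refine ⟨of F 0 * of F 1 - of F 1 * of F 0, ?_, Matrix (Fin 2) (Fin 2) F, inferInstance,
      inferInstance, inferInstance, inferInstance, ?_, ?_⟩
    · intro a
      simp only [map_sub, map_mul, lift_of_apply]
      rw [mul_comm, sub_self]
    · intro x y
      exact ⟨mul_assoc x x y, mul_assoc y x x⟩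
    · intro h
      have := h (fun n => if n = 0 then !![0, 1; 0, 0] else !![0, 0; 1, 0])
      simp only [map_sub, map_mul, lift_of_apply] at this
      have h2 := congrFun (congrFun this 0) 0
      simp at h2
  · intro B _ _ _ _ hB
    have : Finite B := Module.finite_of_finite F
    obtain ⟨n, m, hnm, h⟩ := Finite.exists_ne_map_eq_of_infinite (fun n : ℕ => (pw n : B → B))
    refine ⟨wd F n - wd F m, ?_, ?_⟩
    · intro a
      rw [map_sub, lift_wd, lift_wd]
      rw [show pw n (a 0) = pw m (a 0) from congrFun h (a 0), sub_self]
    · intro hA
      have h1 := hA (fun _ => Polynomial.X)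
      rw [map_sub, lift_wd, lift_wd, pw_poly, pw_poly, sub_eq_zero] at h1
      have h2 := congrArg Polynomial.natDegree h1
      rw [Polynomial.natDegree_X_pow, Polynomial.natDegree_X_pow] at h2
      exact hnm (by omega)

end Pool.Agent.Results.MP_13d782_al.AlternativeFiniteFields
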