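import Mathlib

set_option autoImplicit false

/-! Iltyakov's question for Jordan algebras over finite fields (helper634). -/

namespace Pool.Agent.Results.MP_13d782_al.JordanFiniteFields

open FreeNonUnitalNonAssocAlgebra

universe u v

/-- Jordan algebras (characteristic not 2): `x y = y x` and `(x² y) x = x² (y x)` -/
def IsJordanAlg (A : Type u) [NonUnitalNonAssocRing A] : Prop :=
  ∀ x y : A, x * y = y * x ∧ ((x * x) * y) * x = (x * x) * (y * x)

/-- the element `f` of the free nonassociative algebra on `x_0, x_1, …` is an identity of `A` -/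
def Holds (F : Type u) [Field F] (A : Type v) [NonUnitalNonAssocRing A] [Module F A]
    [IsScalarTower F A A] [SMulCommClass F A A] (f : FreeNonUnitalNonAssocAlgebra F ℕ) : Prop :=
  ∀ a : ℕ → A, FreeNonUnitalNonAssocAlgebra.lift F a f = 0

/-- `A` is finitely generated as a (nonunital, nonassociative) algebra -/
def FinGen (F : Type u) [Field F] (A : Type v) [NonUnitalNonAssocRing A] [Module F A]
    [IsScalarTower F A A] [SMulCommClass F A A] : Prop :=
  ∃ s : Finset A, NonUnitalAlgebra.adjoin F (s : Set A) = ⊤

/-- `A` is a PI algebra within the variety of Jordan algebras: some identity of `A` is not an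
identity of all Jordan algebras, that is, it is a nonzero element of the free Jordan
algebra. -/
def IsPI (F : Type) [Field F] (A : Type) [NonUnitalNonAssocRing A] [Module F A]
    [IsScalarTower F A A] [SMulCommClass F A A] : Prop :=
  ∃ f : FreeNonUnitalNonAssocAlgebra F ℕ, Holds F A f ∧
    ∃ (C : Type) (_ : NonUnitalNonAssocRing C) (_ : Module F C) (_ : IsScalarTower F C C)
      (_ : SMulCommClass F C C), IsJordanAlg C ∧ ¬ Holds F C f

/-- the right-normed words `x_0 (x_0 (… x_0))` -/
private noncomputable def wd (F : Type) [Field F] : ℕ → FreeNonUnitalNonAssocAlgebra F ℕ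
  | 0 => of F 0
  | n + 1 => of F 0 * wd F n

private def pw {B : Type v} [NonUnitalNonAssocRing B] : ℕ → B → B
  | 0 => fun b => b
  | n + 1 => fun b => b * pw n b

private lemma lift_wd (F : Type) [Field F] {B : Type v} [NonUnitalNonAssocRing B] [Module F B]
    [IsScalarTower F B B] [SMulCommClass F B B] (a : ℕ → B) (n : ℕ) :
    lift F a (wd F n) = pw n (a 0) := by
  induction n with
  | zero => simp [wd, pw, lift_of_apply]
  | succ n ih => simp only [wd, pw, map_mul, ih, lift_of_apply]

private lemma pw_poly (F : Type) [Field F] (n : ℕ) :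
    pw n (Polynomial.X : Polynomial F) = Polynomial.X ^ (n + 1) := by
  induction n with
  | zero => simp [pw]
  | succ n ih => simp only [pw, ih]; ring

private lemma finGen_poly (F : Type) [Field F] : FinGen F (Polynomial F) := by
  classical
  refine ⟨{1, Polynomial.X}, ?_⟩
  rw [eq_top_iff]
  intro p _
  have h1 : (1 : Polynomial F) ∈ NonUnitalAlgebra.adjoin F
      (({1, Polynomial.X} : Finset (Polynomial F)) : Set (Polynomial F)) :=
    NonUnitalAlgebra.subset_adjoin F (by simp)
  have hX : (Polynomial.X : Polynomial F) ∈ NonUnitalAlgebra.adjoin F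
      (({1, Polynomial.X} : Finset (Polynomial F)) : Set (Polynomial F)) :=
    NonUnitalAlgebra.subset_adjoin F (by simp)
  have hpow : ∀ n : ℕ, (Polynomial.X ^ n : Polynomial F) ∈ NonUnitalAlgebra.adjoin F
      (({1, Polynomial.X} : Finset (Polynomial F)) : Set (Polynomial F)) := by
    intro n
    induction n with
    | zero => simpa using h1
    | succ n ih => rw [pow_succ]; exact mul_mem ih hX
  rw [p.as_sum_range_C_mul_X_pow]
  refine sum_mem (fun i _ => ?_)
  rw [← Polynomial.smul_eq_C_mul]
  exact SMulMemClass.smul_mem _ (hpow i)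

/-- the three dimensional spin factor -/
private def Spin (F : Type) : Type := F × F × F

private instance (F : Type) [Field F] : AddCommGroup (Spin F) :=
  inferInstanceAs (AddCommGroup (F × F × F))

private instance (F : Type) [Field F] : Module F (Spin F) :=
  inferInstanceAs (Module F (F × F × F))

private instance (F : Type) [Field F] : Mul (Spin F) :=
  ⟨fun x y => (x.1 * y.1 + x.2.1 * y.2.1 + x.2.2 * y.2.2, x.1 * y.2.1 + x.2.1 * y.1,
    x.1 * y.2.2 + x.2.2 * y.1)⟩

private lemma spin_mul (F : Type) [Field F] (x y : Spin F) : x * y =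
    ((x.1 * y.1 + x.2.1 * y.2.1 + x.2.2 * y.2.2, x.1 * y.2.1 + x.2.1 * y.1,
    x.1 * y.2.2 + x.2.2 * y.1) : F × F × F) := rfl

private lemma spin_ext (F : Type) [Field F] {x y : Spin F} (h1 : x.1 = y.1)
    (h2 : x.2.1 = y.2.1) (h3 : x.2.2 = y.2.2) : x = y :=
  Prod.ext h1 (Prod.ext h2 h3)

private lemma spin_add (F : Type) [Field F] (x y : Spin F) :
    (x + y).1 = x.1 + y.1 ∧ (x + y).2.1 = x.2.1 + y.2.1 ∧ (x + y).2.2 = x.2.2 + y.2.2 :=
  ⟨rfl, rfl, rfl⟩

private lemma spin_smul (F : Type) [Field F] (c : F) (x : Spin F) :
    (c • x).1 = c * x.1 ∧ (c • x).2.1 = c * x.2.1 ∧ (c • x).2.2 = c * x.2.2 :=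
  ⟨rfl, rfl, rfl⟩

private lemma spin_mul' (F : Type) [Field F] (x y : Spin F) :
    (x * y).1 = x.1 * y.1 + x.2.1 * y.2.1 + x.2.2 * y.2.2 ∧
    (x * y).2.1 = x.1 * y.2.1 + x.2.1 * y.1 ∧ (x * y).2.2 = x.1 * y.2.2 + x.2.2 * y.1 :=
  ⟨rfl, rfl, rfl⟩

private lemma spin_zero (F : Type) [Field F] :
    (0 : Spin F).1 = 0 ∧ (0 : Spin F).2.1 = 0 ∧ (0 : Spin F).2.2 = 0 := ⟨rfl, rfl, rfl⟩

private instance (F : Type) [Field F] : NonUnitalNonAssocRing (Spin F) where
  left_distrib x y z := by
    apply spin_ext <;> simp only [spin_mul', spin_add] <;> ring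
  right_distrib x y z := by
    apply spin_ext <;> simp only [spin_mul', spin_add] <;> ring
  zero_mul x := by
    apply spin_ext <;> simp only [spin_mul', spin_zero] <;> ring
  mul_zero x := by
    apply spin_ext <;> simp only [spin_mul', spin_zero] <;> ring

private instance (F : Type) [Field F] : IsScalarTower F (Spin F) (Spin F) where
  smul_assoc c x y := by
    simp only [smul_eq_mul]
    apply spin_ext <;> simp only [spin_mul', spin_smul] <;> ring

private instance (F : Type) [Field F] : SMulCommClass F (Spin F) (Spin F) where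
  smul_comm c x y := by
    simp only [smul_eq_mul]
    apply spin_ext <;> simp only [spin_mul', spin_smul] <;> ring

private def se (F : Type) [Field F] : Spin F := ((0, 1, 0) : F × F × F)
private def sf (F : Type) [Field F] : Spin F := ((0, 0, 1) : F × F × F)

private lemma se_val (F : Type) [Field F] :
    (se F).1 = 0 ∧ (se F).2.1 = 1 ∧ (se F).2.2 = 0 := ⟨rfl, rfl, rfl⟩

private lemma sf_val (F : Type) [Field F] :
    (sf F).1 = 0 ∧ (sf F).2.1 = 0 ∧ (sf F).2.2 = 1 := ⟨rfl, rfl, rfl⟩

/-- Over every finite field `F` of characteristic not 2 the answer to Iltyakov's question for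
Jordan algebras is negative: there is a finitely generated Jordan PI algebra `A` (even
associative and unital) such that every finite dimensional algebra `B`, Jordan or not, has an
identity which fails in `A`. -/
theorem result (F : Type) [Field F] [Finite F] (_h2 : (2 : F) ≠ 0) :
    ∃ (A : Type) (_ : NonUnitalNonAssocRing A) (_ : Module F A) (_ : IsScalarTower F A A)
      (_ : SMulCommClass F A A), IsJordanAlg A ∧ FinGen F A ∧ IsPI F A ∧
      ∀ (B : Type v) [NonUnitalNonAssocRing B] [Module F B] [IsScalarTower F B B]
        [SMulCommClass F B B], Module.Finite F B →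
        ∃ f : FreeNonUnitalNonAssocAlgebra F ℕ, Holds F B f ∧ ¬ Holds F A f := by
  refine ⟨Polynomial F, inferInstance, inferInstance, inferInstance, inferInstance, ?_,
    finGen_poly F, ?_, ?_⟩
  · intro x y
    exact ⟨mul_comm x y, mul_assoc _ _ _⟩
  · refine ⟨(of F 0 * of F 1) * of F 2 - of F 0 * (of F 1 * of F 2), ?_, Spin F, inferInstance,
      inferInstance, inferInstance, inferInstance, ?_, ?_⟩
    · intro a
      simp only [map_sub, map_mul, lift_of_apply]
      rw [mul_assoc, sub_self]
    · intro x y
      constructor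
      · apply spin_ext <;> simp only [spin_mul'] <;> ring
      · apply spin_ext <;> simp only [spin_mul'] <;> ring
    · intro h
      have := h (fun n => if n = 2 then sf F else se F)
      simp only [map_sub, map_mul, lift_of_apply] at this
      rw [sub_eq_zero, if_neg (by norm_num), if_neg (by norm_num)] at this
      simp only [if_true] at this
      have h2 := congrArg (fun x : Spin F => x.2.2) this
      simp only [spin_mul', se_val, sf_val] at h2
      norm_num at h2
  · intro B _ _ _ _ hB
    have : Finite B := Module.finite_of_finite F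
    obtain ⟨n, m, hnm, h⟩ := Finite.exists_ne_map_eq_of_infinite (fun n : ℕ => (pw n : B → B))
    refine ⟨wd F n - wd F m, ?_, ?_⟩
    · intro a
      rw [map_sub, lift_wd, lift_wd]
      rw [show pw n (a 0) = pw m (a 0) from congrFun h (a 0), sub_self]
    · intro hA
      have h1 := hA (fun _ => Polynomial.X)
      rw [map_sub, lift_wd, lift_wd, pw_poly, pw_poly, sub_eq_zero] at h1
      have h2 := congrArg Polynomial.natDegree h1
      rw [Polynomial.natDegree_X_pow, Polynomial.natDegree_X_pow] at h2
      exact hnm (by omega)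

end Pool.Agent.Results.MP_13d782_al.JordanFiniteFields
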